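import Mathlib

set_option autoImplicit false
set_option linter.unusedSectionVars false

namespace Pool.Agent.Results.MP_0568c2_al.KStarInfinite

section Aux

open scoped commutatorElement

/-- Heisenberg type extension of `G` by functions on the `G`-sets `X`, `Y` and `X × Y`. -/
@[ext] structure HG (G X Y F : Type) where
  u : X → F
  v : Y → F
  w : X → Y → F
  g : G

namespace HG

variable {G X Y F : Type} [Group G] [MulAction G X] [MulAction G Y] [CommRing F]

instance : Mul (HG G X Y F) :=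
  ⟨fun a b =>
    { u := fun x => a.u x + b.u (a.g⁻¹ • x)
      v := fun y => a.v y + b.v (a.g⁻¹ • y)
      w := fun x y => a.w x y + b.w (a.g⁻¹ • x) (a.g⁻¹ • y) + a.u x * b.v (a.g⁻¹ • y)
      g := a.g * b.g }⟩

instance : One (HG G X Y F) := ⟨⟨fun _ => 0, fun _ => 0, fun _ _ => 0, 1⟩⟩

instance : Inv (HG G X Y F) :=
  ⟨fun a =>
    { u := fun x => - a.u (a.g • x)
      v := fun y => - a.v (a.g • y)
      w := fun x y => - a.w (a.g • x) (a.g • y) + a.u (a.g • x) * a.v (a.g • y)
      g := a.g⁻¹ }⟩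

@[simp] theorem mul_u (a b : HG G X Y F) (x : X) : (a * b).u x = a.u x + b.u (a.g⁻¹ • x) := rfl
@[simp] theorem mul_v (a b : HG G X Y F) (y : Y) : (a * b).v y = a.v y + b.v (a.g⁻¹ • y) := rfl
@[simp] theorem mul_w (a b : HG G X Y F) (x : X) (y : Y) :
    (a * b).w x y = a.w x y + b.w (a.g⁻¹ • x) (a.g⁻¹ • y) + a.u x * b.v (a.g⁻¹ • y) := rfl
@[simp] theorem mul_g (a b : HG G X Y F) : (a * b).g = a.g * b.g := rfl
@[simp] theorem one_u (x : X) : (1 : HG G X Y F).u x = 0 := rfl
@[simp] theorem one_v (y : Y) : (1 : HG G X Y F).v y = 0 := rfl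
@[simp] theorem one_w (x : X) (y : Y) : (1 : HG G X Y F).w x y = 0 := rfl
@[simp] theorem one_g : (1 : HG G X Y F).g = 1 := rfl
@[simp] theorem inv_u (a : HG G X Y F) (x : X) : (a⁻¹).u x = - a.u (a.g • x) := rfl
@[simp] theorem inv_v (a : HG G X Y F) (y : Y) : (a⁻¹).v y = - a.v (a.g • y) := rfl
@[simp] theorem inv_w (a : HG G X Y F) (x : X) (y : Y) :
    (a⁻¹).w x y = - a.w (a.g • x) (a.g • y) + a.u (a.g • x) * a.v (a.g • y) := rfl
@[simp] theorem inv_g (a : HG G X Y F) : (a⁻¹).g = a.g⁻¹ := rfl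

instance : Group (HG G X Y F) :=
  Group.ofLeftAxioms
    (by
      intro a b c
      ext
      · simp [mul_smul, add_assoc]
      · simp [mul_smul, add_assoc]
      · simp [mul_smul]; ring
      · simp [mul_assoc])
    (by
      intro a
      ext <;> simp)
    (by
      intro a
      ext <;> simp)

/-- The projection to `G`. -/
def proj : HG G X Y F →* G where
  toFun a := a.g
  map_one' := rfl
  map_mul' _ _ := rfl

@[simp] theorem proj_apply (a : HG G X Y F) : proj a = a.g := rfl

/-- The inclusion of `G`. -/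
def inc : G →* HG G X Y F where
  toFun g := ⟨fun _ => 0, fun _ => 0, fun _ _ => 0, g⟩
  map_one' := rfl
  map_mul' a b := by ext <;> simp

@[simp] theorem inc_u (g : G) (x : X) : (inc g : HG G X Y F).u x = 0 := rfl
@[simp] theorem inc_v (g : G) (y : Y) : (inc g : HG G X Y F).v y = 0 := rfl
@[simp] theorem inc_w (g : G) (x : X) (y : Y) : (inc g : HG G X Y F).w x y = 0 := rfl
@[simp] theorem inc_g (g : G) : (inc g : HG G X Y F).g = g := rfl

theorem proj_surjective : Function.Surjective (proj : HG G X Y F →* G) := fun g => ⟨inc g, rfl⟩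

instance [Finite G] [Finite X] [Finite Y] [Finite F] : Finite (HG G X Y F) := by
  let f : HG G X Y F → (X → F) × (Y → F) × (X → Y → F) × G := fun a => (a.u, a.v, a.w, a.g)
  refine Finite.of_injective f ?_
  intro a b h
  simp only [f, Prod.mk.injEq] at h
  exact HG.ext h.1 h.2.1 h.2.2.1 h.2.2.2

theorem solvable_of (hG : Group.IsSolvable G) : Group.IsSolvable (HG G X Y F) := by
  obtain ⟨n, hn⟩ := hG.solvable
  -- the three step series
  let N0 : Subgroup (HG G X Y F) :=
    { carrier := {a | a.g = 1}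
      mul_mem' := by intro a b ha hb; simp only [Set.mem_ofPred_eq] at *; simp [ha, hb]
      one_mem' := rfl
      inv_mem' := by intro a ha; simp only [Set.mem_ofPred_eq] at *; simp [ha] }
  let N1 : Subgroup (HG G X Y F) :=
    { carrier := {a | a.g = 1 ∧ (∀ x, a.u x = 0) ∧ (∀ y, a.v y = 0)}
      mul_mem' := by
        rintro a b ⟨h1, h2, h3⟩ ⟨h4, h5, h6⟩
        exact ⟨by simp [h1, h4], by simp [h2, h5], by simp [h3, h6]⟩
      one_mem' := ⟨rfl, fun _ => rfl, fun _ => rfl⟩
      inv_mem' := by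
        rintro a ⟨h1, h2, h3⟩
        exact ⟨by simp [h1], by simp [h2], by simp [h3]⟩ }
  have h0 : derivedSeries (HG G X Y F) n ≤ N0 := by
    intro a ha
    have h1 : proj a ∈ derivedSeries G n :=
      map_derivedSeries_le_derivedSeries proj n (Subgroup.mem_map_of_mem _ ha)
    rw [hn] at h1
    exact (Subgroup.mem_bot.1 h1)
  have h1 : derivedSeries (HG G X Y F) (n + 1) ≤ N1 := by
    rw [derivedSeries_succ]
    refine (Subgroup.commutator_mono h0 h0).trans ?_
    rw [Subgroup.commutator_le]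
    intro a (ha : a.g = 1) b (hb : b.g = 1)
    refine ⟨?_, ?_, ?_⟩
    · simp [commutatorElement_def, ha, hb]
    · intro x; simp [commutatorElement_def, ha, hb]
    · intro x; simp [commutatorElement_def, ha, hb]
  have h2 : derivedSeries (HG G X Y F) (n + 2) ≤ ⊥ := by
    rw [derivedSeries_succ]
    refine (Subgroup.commutator_mono h1 h1).trans ?_
    rw [Subgroup.commutator_le]
    rintro a ⟨ha1, ha2, ha3⟩ b ⟨hb1, hb2, hb3⟩
    rw [Subgroup.mem_bot]
    ext x
    · simp [commutatorElement_def, ha1, hb1]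
    · simp [commutatorElement_def, ha1, hb1]
    · simp [commutatorElement_def, ha1, hb1, ha2, hb2, ha3, hb3]
    · simp [commutatorElement_def, ha1, hb1]
  exact ⟨n + 2, le_bot_iff.1 h2⟩

theorem inc_mem (t : ℕ) {s : G} (hs : s ∈ derivedSeries G t) :
    (inc s : HG G X Y F) ∈ derivedSeries (HG G X Y F) t :=
  map_derivedSeries_le_derivedSeries inc t (Subgroup.mem_map_of_mem _ hs)

/-- Elements of the `u`-part. -/
def mu (f : X → F) : HG G X Y F := ⟨f, fun _ => 0, fun _ _ => 0, 1⟩

/-- Elements of the `v`-part. -/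
def mv (f : Y → F) : HG G X Y F := ⟨fun _ => 0, f, fun _ _ => 0, 1⟩

/-- Elements of the `w`-part. -/
def mw (f : X → Y → F) : HG G X Y F := ⟨fun _ => 0, fun _ => 0, f, 1⟩

theorem mu_comm (f : X → F) (s : G) :
    ⁅(mu f : HG G X Y F), (inc s : HG G X Y F)⁆ =
      (mu (fun x => f x - f (s⁻¹ • x)) : HG G X Y F) := by
  ext x
  · simp [commutatorElement_def, mu, sub_eq_add_neg]
  · simp [commutatorElement_def, mu]
  · simp [commutatorElement_def, mu]
  · simp [commutatorElement_def, mu]

theorem mv_comm (f : Y → F) (s : G) :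
    ⁅(mv f : HG G X Y F), (inc s : HG G X Y F)⁆ =
      (mv (fun x => f x - f (s⁻¹ • x)) : HG G X Y F) := by
  ext x
  · simp [commutatorElement_def, mv]
  · simp [commutatorElement_def, mv, sub_eq_add_neg]
  · simp [commutatorElement_def, mv]
  · simp [commutatorElement_def, mv]

theorem mu_mv_comm (f : X → F) (h : Y → F) :
    ⁅(mu f : HG G X Y F), (mv h : HG G X Y F)⁆ =
      (mw (fun x y => f x * h y) : HG G X Y F) := by
  ext x
  · simp [commutatorElement_def, mu, mv, mw]
  · simp [commutatorElement_def, mu, mv, mw]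
  · simp [commutatorElement_def, mu, mv, mw]
  · simp [commutatorElement_def, mu, mv, mw]

/-- The functions whose `u`-element lies in a subgroup. -/
def uSub (D : Subgroup (HG G X Y F)) : AddSubgroup (X → F) where
  carrier := {f | mu f ∈ D}
  zero_mem' := D.one_mem
  add_mem' := by
    intro a b ha hb
    have h : (mu (a + b) : HG G X Y F) = mu a * mu b := by
      ext <;> simp [mu]
    change mu (a + b) ∈ D
    rw [h]; exact D.mul_mem ha hb
  neg_mem' := by
    intro a ha
    have h : (mu (-a) : HG G X Y F) = (mu a)⁻¹ := by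
      ext <;> simp [mu]
    change mu (-a) ∈ D
    rw [h]; exact D.inv_mem ha

/-- The functions whose `v`-element lies in a subgroup. -/
def vSub (D : Subgroup (HG G X Y F)) : AddSubgroup (Y → F) where
  carrier := {f | mv f ∈ D}
  zero_mem' := D.one_mem
  add_mem' := by
    intro a b ha hb
    have h : (mv (a + b) : HG G X Y F) = mv a * mv b := by
      ext <;> simp [mv]
    change mv (a + b) ∈ D
    rw [h]; exact D.mul_mem ha hb
  neg_mem' := by
    intro a ha
    have h : (mv (-a) : HG G X Y F) = (mv a)⁻¹ := by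
      ext <;> simp [mv]
    change mv (-a) ∈ D
    rw [h]; exact D.inv_mem ha

theorem mem_uSub (D : Subgroup (HG G X Y F)) (f : X → F) : f ∈ uSub D ↔ mu f ∈ D := Iff.rfl
theorem mem_vSub (D : Subgroup (HG G X Y F)) (f : Y → F) : f ∈ vSub D ↔ mv f ∈ D := Iff.rfl

/-- Averaging: a function with zero orbit sums is a combination of differences. -/
theorem avg_mem {Z : Type} [MulAction G Z] (T : Subgroup G) [Fintype T] (n : ℕ)
    (hn : (n : F) * (Fintype.card T : F) = 1) (A : AddSubgroup (Z → F)) (f : Z → F)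
    (hf : ∀ z, ∑ s : T, f ((s : G) • z) = 0)
    (hA : ∀ s : T, (fun z => f z - f ((s : G)⁻¹ • z)) ∈ A) : f ∈ A := by
  classical
  have h1 : (∑ s : T, fun z => f z - f ((s : G)⁻¹ • z)) ∈ A := A.sum_mem fun s _ => hA s
  have h2 : f = n • (∑ s : T, fun z => f z - f ((s : G)⁻¹ • z)) := by
    funext z
    have h3 : ∑ s : T, f ((s : G)⁻¹ • z) = 0 := by
      rw [← hf z]
      exact Fintype.sum_equiv (Equiv.inv T) _ _ (fun s => by simp)
    simp only [Pi.smul_apply, Finset.sum_apply, Finset.sum_sub_distrib, h3, sub_zero,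
      Finset.sum_const, Finset.card_univ, nsmul_eq_mul]
    rw [← mul_assoc, hn, one_mul]
  rw [h2]
  exact A.nsmul_mem h1 n

theorem mu_mem (t : ℕ) (n : ℕ) (hn : (n : F) * (Nat.card (derivedSeries G t) : F) = 1)
    [Finite G] (f : X → F)
    (hf : ∀ z, ∑ᶠ s : derivedSeries G t, f ((s : G) • z) = 0) (j : ℕ) (hj : j ≤ t + 1) :
    (mu f : HG G X Y F) ∈ derivedSeries (HG G X Y F) j := by
  classical
  have : Fintype (derivedSeries G t) := Fintype.ofFinite _
  induction j with
  | zero => rw [derivedSeries_zero]; exact Subgroup.mem_top _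
  | succ j ih =>
    have ih' := ih (by omega)
    rw [← mem_uSub]
    refine avg_mem (derivedSeries G t) n (by rw [← Nat.card_eq_fintype_card]; exact hn) _ f ?_ ?_
    · intro z; rw [← hf z, finsum_eq_sum_of_fintype]
    · intro s
      rw [mem_uSub, ← mu_comm, derivedSeries_succ]
      exact Subgroup.commutator_mem_commutator ih'
        (derivedSeries_antitone _ (by omega : j ≤ t) (inc_mem t s.2))

theorem mv_mem (t : ℕ) (n : ℕ) (hn : (n : F) * (Nat.card (derivedSeries G t) : F) = 1)
    [Finite G] (f : Y → F)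
    (hf : ∀ z, ∑ᶠ s : derivedSeries G t, f ((s : G) • z) = 0) (j : ℕ) (hj : j ≤ t + 1) :
    (mv f : HG G X Y F) ∈ derivedSeries (HG G X Y F) j := by
  classical
  have : Fintype (derivedSeries G t) := Fintype.ofFinite _
  induction j with
  | zero => rw [derivedSeries_zero]; exact Subgroup.mem_top _
  | succ j ih =>
    have ih' := ih (by omega)
    rw [← mem_vSub]
    refine avg_mem (derivedSeries G t) n (by rw [← Nat.card_eq_fintype_card]; exact hn) _ f ?_ ?_
    · intro z; rw [← hf z, finsum_eq_sum_of_fintype]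
    · intro s
      rw [mem_vSub, ← mv_comm, derivedSeries_succ]
      exact Subgroup.commutator_mem_commutator ih'
        (derivedSeries_antitone _ (by omega : j ≤ t) (inc_mem t s.2))

/-- A function with zero orbit sums and value one at a moved point. -/
theorem exists_fun {Z : Type} [MulAction G Z] [Finite G] (T : Subgroup G) (z : Z)
    (hz : ∃ s ∈ T, s • z ≠ z) :
    ∃ f : Z → F, f z = 1 ∧ ∀ y, ∑ᶠ s : T, f ((s : G) • y) = 0 := by
  classical
  have : Fintype T := Fintype.ofFinite _
  obtain ⟨r, hr, hrz⟩ := hz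
  refine ⟨fun y => (if y = z then 1 else 0) - (if y = r • z then 1 else 0), ?_, ?_⟩
  · simp only [if_true]
    rw [if_neg (Ne.symm hrz), sub_zero]
  · intro y
    rw [finsum_eq_sum_of_fintype, Finset.sum_sub_distrib, sub_eq_zero]
    refine Fintype.sum_equiv (Equiv.mulLeft (⟨r, hr⟩ : T)) _ _ (fun s => ?_)
    simp only [Equiv.coe_mulLeft, Subgroup.coe_mul, mul_smul]
    by_cases h : (s : G) • y = z
    · rw [if_pos h, if_pos (by rw [h])]
    · rw [if_neg h, if_neg (fun h' => h (smul_left_cancel r h'))]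


/-- The combination rule for levels. -/
def cmb (a b : ℕ) : ℕ := if a = b then a + 1 else max a b

theorem le_cmb_left (a b : ℕ) : a ≤ cmb a b := by
  unfold cmb; split_ifs <;> omega

theorem le_cmb_right (a b : ℕ) : b ≤ cmb a b := by
  unfold cmb; split_ifs <;> omega

theorem cmb_le {a b j : ℕ} (h : cmb a b < j + 1) : a ≤ j ∧ b ≤ j ∧ (a < j ∨ b < j) := by
  unfold cmb at h; split_ifs at h <;> omega

/-- The level subgroups of the extension. -/
def lsub (L : ℕ → Subgroup G) (l : X → ℕ) (m : Y → ℕ)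
    (anti : Antitone L) (hl : ∀ g ∈ L 0, ∀ x, l (g • x) = l x)
    (hm : ∀ g ∈ L 0, ∀ y, m (g • y) = m y) (j : ℕ) : Subgroup (HG G X Y F) where
  carrier := {a | a.g ∈ L j ∧ (∀ x, l x < j → a.u x = 0) ∧ (∀ y, m y < j → a.v y = 0) ∧
    ∀ x y, cmb (l x) (m y) < j → a.w x y = 0}
  mul_mem' := by
    rintro a b ⟨ha1, ha2, ha3, ha4⟩ ⟨hb1, hb2, hb3, hb4⟩
    have hx : ∀ x, l (a.g⁻¹ • x) = l x := fun x =>
      hl _ ((L 0).inv_mem (anti (Nat.zero_le j) ha1)) x
    have hy : ∀ y, m (a.g⁻¹ • y) = m y := fun y =>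
      hm _ ((L 0).inv_mem (anti (Nat.zero_le j) ha1)) y
    refine ⟨(L j).mul_mem ha1 hb1, ?_, ?_, ?_⟩
    · intro x hxj
      rw [mul_u, ha2 x hxj, hb2 _ (by rw [hx]; exact hxj), add_zero]
    · intro y hyj
      rw [mul_v, ha3 y hyj, hb3 _ (by rw [hy]; exact hyj), add_zero]
    · intro x y hxy
      rw [mul_w, ha4 x y hxy, hb4 _ _ (by rw [hx, hy]; exact hxy),
        ha2 x (lt_of_le_of_lt (le_cmb_left _ _) hxy)]
      ring
  one_mem' := ⟨(L j).one_mem, fun _ _ => rfl, fun _ _ => rfl, fun _ _ _ => rfl⟩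
  inv_mem' := by
    rintro a ⟨ha1, ha2, ha3, ha4⟩
    have hx : ∀ x, l (a.g • x) = l x := fun x => hl _ (anti (Nat.zero_le j) ha1) x
    have hy : ∀ y, m (a.g • y) = m y := fun y => hm _ (anti (Nat.zero_le j) ha1) y
    refine ⟨(L j).inv_mem ha1, ?_, ?_, ?_⟩
    · intro x hxj
      rw [inv_u, ha2 _ (by rw [hx]; exact hxj), neg_zero]
    · intro y hyj
      rw [inv_v, ha3 _ (by rw [hy]; exact hyj), neg_zero]
    · intro x y hxy
      rw [inv_w, ha4 _ _ (by rw [hx, hy]; exact hxy),
        ha2 (a.g • x) (by rw [hx]; exact lt_of_le_of_lt (le_cmb_left _ _) hxy)]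
      ring

theorem mem_lsub (L : ℕ → Subgroup G) (l : X → ℕ) (m : Y → ℕ)
    (anti : Antitone L) (hl : ∀ g ∈ L 0, ∀ x, l (g • x) = l x)
    (hm : ∀ g ∈ L 0, ∀ y, m (g • y) = m y) (j : ℕ) (a : HG G X Y F) :
    a ∈ lsub L l m anti hl hm j ↔ a.g ∈ L j ∧ (∀ x, l x < j → a.u x = 0) ∧
      (∀ y, m y < j → a.v y = 0) ∧ ∀ x y, cmb (l x) (m y) < j → a.w x y = 0 := Iff.rfl

theorem lsub_antitone (L : ℕ → Subgroup G) (l : X → ℕ) (m : Y → ℕ)
    (anti : Antitone L) (hl : ∀ g ∈ L 0, ∀ x, l (g • x) = l x)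
    (hm : ∀ g ∈ L 0, ∀ y, m (g • y) = m y) :
    Antitone (lsub (F := F) L l m anti hl hm) := by
  intro i j hij a ha
  rw [mem_lsub] at ha ⊢
  exact ⟨anti hij ha.1, fun x hx => ha.2.1 x (by omega), fun y hy => ha.2.2.1 y (by omega),
    fun x y hxy => ha.2.2.2 x y (by omega)⟩

theorem lsub_comm (L : ℕ → Subgroup G) (l : X → ℕ) (m : Y → ℕ)
    (anti : Antitone L) (hl : ∀ g ∈ L 0, ∀ x, l (g • x) = l x)
    (hm : ∀ g ∈ L 0, ∀ y, m (g • y) = m y)
    (fx : ∀ x, ∀ g ∈ L (l x), g • x = x) (fy : ∀ y, ∀ g ∈ L (m y), g • y = y)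
    (hL : ∀ j, ⁅L j, L j⁆ ≤ L (j + 1)) (j : ℕ) :
    ⁅(lsub L l m anti hl hm j : Subgroup (HG G X Y F)),
      (lsub L l m anti hl hm j : Subgroup (HG G X Y F))⁆ ≤
      lsub L l m anti hl hm (j + 1) := by
  rw [Subgroup.commutator_le]
  rintro a ⟨ha1, ha2, ha3, ha4⟩ b ⟨hb1, hb2, hb3, hb4⟩
  have inv_fix : ∀ {Z : Type} [MulAction G Z] (g : G) (z : Z), g • z = z → g⁻¹ • z = z := by
    intro Z _ g z h
    rw [inv_smul_eq_iff, h]
  have hax : ∀ x, l x ≤ j → a.g • x = x := fun x hx => fx x _ (anti hx ha1)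
  have hbx : ∀ x, l x ≤ j → b.g • x = x := fun x hx => fx x _ (anti hx hb1)
  have hay : ∀ y, m y ≤ j → a.g • y = y := fun y hy => fy y _ (anti hy ha1)
  have hby : ∀ y, m y ≤ j → b.g • y = y := fun y hy => fy y _ (anti hy hb1)
  rw [mem_lsub]
  refine ⟨?_, ?_, ?_, ?_⟩
  · have : (⁅a, b⁆ : HG G X Y F).g = ⁅a.g, b.g⁆ := rfl
    rw [this]
    exact hL j (Subgroup.commutator_mem_commutator ha1 hb1)
  · intro x hx
    have h1 := hax x (by omega)
    have h2 := hbx x (by omega)
    have h3 := inv_fix _ _ h1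
    have h4 := inv_fix _ _ h2
    simp only [commutatorElement_def, mul_u, mul_g, inv_u, inv_g, mul_smul, mul_inv_rev, inv_inv,
      h1, h2, h3, h4]
    ring
  · intro y hy
    have h1 := hay y (by omega)
    have h2 := hby y (by omega)
    have h3 := inv_fix _ _ h1
    have h4 := inv_fix _ _ h2
    simp only [commutatorElement_def, mul_v, mul_g, inv_v, inv_g, mul_smul, mul_inv_rev, inv_inv,
      h1, h2, h3, h4]
    ring
  · intro x y hxy
    obtain ⟨hx, hy, hor⟩ := cmb_le hxy
    have h1 := hax x hx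
    have h2 := hbx x hx
    have h3 := inv_fix _ _ h1
    have h4 := inv_fix _ _ h2
    have k1 := hay y hy
    have k2 := hby y hy
    have k3 := inv_fix _ _ k1
    have k4 := inv_fix _ _ k2
    have key : (⁅a, b⁆ : HG G X Y F).w x y = a.u x * b.v y - b.u x * a.v y := by
      simp only [commutatorElement_def, mul_w, mul_u, mul_g, inv_w, inv_u, inv_v, inv_g,
        mul_smul, mul_inv_rev, inv_inv, h1, h2, h3, h4, k1, k2, k3, k4]
      ring
    rw [key]
    rcases hor with h | h
    · rw [ha2 x h, hb2 x h]; ring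
    · rw [ha3 y h, hb3 y h]; ring

theorem lsub_bot (L : ℕ → Subgroup G) (l : X → ℕ) (m : Y → ℕ)
    (anti : Antitone L) (hl : ∀ g ∈ L 0, ∀ x, l (g • x) = l x)
    (hm : ∀ g ∈ L 0, ∀ y, m (g • y) = m y) (j : ℕ) (hj : L j = ⊥)
    (h1 : ∀ x, l x < j) (h2 : ∀ y, m y < j) (h3 : ∀ x y, cmb (l x) (m y) < j) :
    (lsub L l m anti hl hm j : Subgroup (HG G X Y F)) = ⊥ := by
  rw [eq_bot_iff]
  intro a ha
  rw [mem_lsub, hj, Subgroup.mem_bot] at ha
  rw [Subgroup.mem_bot]
  ext x y
  · exact ha.2.1 x (h1 x)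
  · exact ha.2.2.1 _ (h2 _)
  · exact ha.2.2.2 _ _ (h3 _ _)
  · exact ha.1

end HG

/-- Points of the new set. -/
@[ext] structure Pt (X F : Type) where
  x : X
  y : X
  p : F
  q : F

instance {X F : Type} [Finite X] [Finite F] : Finite (Pt X F) := by
  let f : Pt X F → X × X × F × F := fun a => (a.x, a.y, a.p, a.q)
  refine Finite.of_injective f ?_
  intro a b h
  simp only [f, Prod.mk.injEq] at h
  exact Pt.ext h.1 h.2.1 h.2.2.1 h.2.2.2

/-- The action map on the new set. -/
def ptMap {G X F : Type} [Group G] [MulAction G X] [CommRing F]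
    (a : HG G X X F) (z : Pt X F) : Pt X F :=
  ⟨a.g • z.x, a.g • z.y, z.p + a.v (a.g • z.y),
    z.q + a.u (a.g • z.x) * z.p + a.w (a.g • z.x) (a.g • z.y)⟩

/-- The action on the new set. -/
@[reducible] def ptAct (G X F : Type) [Group G] [MulAction G X] [CommRing F] :
    MulAction (HG G X X F) (Pt X F) where
  smul := ptMap
  one_smul z := by
    change ptMap 1 z = z
    ext <;> simp [ptMap]
  mul_smul a b z := by
    change ptMap (a * b) z = ptMap a (ptMap b z)
    ext
    · simp [ptMap, mul_smul]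
    · simp [ptMap, mul_smul]
    · simp [ptMap, mul_smul]; ring
    · simp [ptMap, mul_smul]; ring

/-- A stage of the construction over the set `Ω`. -/
structure State (Ω : Type) where
  G : Type
  [grp : Group G]
  [fin : Finite G]
  [act : MulAction G Ω]
  X : Type
  [finX : Finite X]
  [actX : MulAction G X]
  solv : Group.IsSolvable G
  trans : ∀ a b : Ω, ∃ g : G, g • a = b
  mx : ∀ ω : Ω, IsCoatom (MulAction.stabilizer G ω)
  t : ℕ
  moves : ∀ x : X, ∃ g ∈ derivedSeries G t, g • x ≠ x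
  L : Ω → ℕ → Subgroup G
  L0 : ∀ ω, L ω 0 = MulAction.stabilizer G ω
  Lanti : ∀ ω, Antitone (L ω)
  Lcomm : ∀ ω j, ⁅L ω j, L ω j⁆ ≤ L ω (j + 1)
  lev : Ω → X → ℕ
  lev_smul : ∀ (g : G) (ω : Ω) (x : X), lev (g • ω) (g • x) = lev ω x
  lev_fix : ∀ (ω : Ω) (x : X), ∀ g ∈ L ω (lev ω x), g • x = x
  lev_le : ∀ (ω : Ω) (x : X), lev ω x ≤ t
  Lbot : ∃ m, ∀ ω, L ω m = ⊥

attribute [instance] State.grp State.fin State.act State.finX State.actX

theorem isCoatom_comap {G H : Type} [Group G] [Group H] (f : H →* G)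
    (hf : Function.Surjective f) {M : Subgroup G} (hM : IsCoatom M) : IsCoatom (M.comap f) := by
  constructor
  · intro h
    apply hM.1
    rw [← Subgroup.map_comap_eq_self_of_surjective hf M, h]
    exact Subgroup.map_top_of_surjective f hf
  · intro K hK
    have hker : f.ker ≤ K := by
      refine le_trans ?_ hK.le
      intro x hx
      rw [Subgroup.mem_comap, (MonoidHom.mem_ker).1 hx]
      exact M.one_mem
    have h1 : K = (K.map f).comap f := by
      rw [Subgroup.comap_map_eq_self hker]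
    have h2 : M < K.map f := by
      refine lt_of_le_of_ne ?_ ?_
      · rw [← Subgroup.map_comap_eq_self_of_surjective hf M]
        exact Subgroup.map_mono hK.le
      · intro h
        rw [h, ← h1] at hK
        exact lt_irrefl _ hK
    rw [h1, hM.2 _ h2, Subgroup.comap_top]

theorem exists_inv_mod (l : ℕ) [Fact l.Prime] (c : ℕ) (h0 : 0 < c) (hl : c < l) :
    ∃ n : ℕ, (n : ZMod l) * (c : ZMod l) = 1 := by
  have hc : (c : ZMod l) ≠ 0 := by
    intro h
    rw [ZMod.natCast_eq_zero_iff] at h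
    exact absurd (Nat.le_of_dvd h0 h) (by omega)
  refine ⟨((c : ZMod l)⁻¹).val, ?_⟩
  rw [ZMod.natCast_val, ZMod.cast_id', id, inv_mul_cancel₀ hc]

theorem State.lev_stab {Ω : Type} (S : State Ω) (ω : Ω) :
    ∀ g ∈ S.L ω 0, ∀ x, S.lev ω (g • x) = S.lev ω x := by
  intro g hg x
  rw [S.L0, MulAction.mem_stabilizer_iff] at hg
  conv_lhs => rw [← hg]
  exact S.lev_smul g ω x

/-- The next stage. -/
noncomputable def next {Ω : Type} (S : State Ω) (l : ℕ) [hl : Fact l.Prime]
    (hcard : Nat.card S.G < l) : State Ω :=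
  letI : MulAction (HG S.G S.X S.X (ZMod l)) Ω := MulAction.compHom Ω HG.proj
  letI : MulAction (HG S.G S.X S.X (ZMod l)) (Pt S.X (ZMod l)) := ptAct S.G S.X (ZMod l)
  { G := HG S.G S.X S.X (ZMod l)
    X := Pt S.X (ZMod l)
    solv := HG.solvable_of S.solv
    trans := by
      intro a b
      obtain ⟨g, hg⟩ := S.trans a b
      exact ⟨HG.inc g, hg⟩
    mx := by
      intro ω
      have h : MulAction.stabilizer (HG S.G S.X S.X (ZMod l)) ω =
          (MulAction.stabilizer S.G ω).comap HG.proj := by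
        ext a; rfl
      rw [h]
      exact isCoatom_comap HG.proj HG.proj_surjective (S.mx ω)
    t := S.t + 2
    moves := by
      intro z
      obtain ⟨n, hn⟩ := exists_inv_mod l (Nat.card (derivedSeries S.G S.t)) Nat.card_pos
        (lt_of_le_of_lt (Subgroup.card_le_card_group _) hcard)
      obtain ⟨f, hf1, hf2⟩ := HG.exists_fun (F := ZMod l) (derivedSeries S.G S.t) z.x (S.moves z.x)
      obtain ⟨h, hh1, hh2⟩ := HG.exists_fun (F := ZMod l) (derivedSeries S.G S.t) z.y (S.moves z.y)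
      have e1 := HG.mu_mem (Y := S.X) S.t n hn f hf2 (S.t + 1) le_rfl
      have e2 := HG.mv_mem (X := S.X) S.t n hn h hh2 (S.t + 1) le_rfl
      refine ⟨⁅(HG.mu f : HG S.G S.X S.X (ZMod l)), (HG.mv h : HG S.G S.X S.X (ZMod l))⁆, ?_, ?_⟩
      · rw [derivedSeries_succ]
        exact Subgroup.commutator_mem_commutator e1 e2
      · rw [HG.mu_mv_comm]
        intro hcon
        have h2 := congrArg Pt.q hcon
        change z.q + (0 : ZMod l) * z.p + f ((1 : S.G) • z.x) * h ((1 : S.G) • z.y) = z.q at h2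
        rw [one_smul, one_smul, hf1, hh1] at h2
        simp at h2
    L := fun ω => HG.lsub (S.L ω) (S.lev ω) (S.lev ω) (S.Lanti ω)
      (S.lev_stab ω) (S.lev_stab ω)
    L0 := by
      intro ω
      ext a
      rw [HG.mem_lsub, S.L0, MulAction.mem_stabilizer_iff, MulAction.mem_stabilizer_iff]
      constructor
      · intro h; exact h.1
      · intro h; exact ⟨h, fun x hx => absurd hx (Nat.not_lt_zero _),
          fun x hx => absurd hx (Nat.not_lt_zero _), fun x y hx => absurd hx (Nat.not_lt_zero _)⟩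
    Lanti := fun ω => HG.lsub_antitone _ _ _ _ _ _
    Lcomm := fun ω j => HG.lsub_comm _ _ _ _ _ _ (S.lev_fix ω) (S.lev_fix ω) (S.Lcomm ω) j
    lev := fun ω z => 1 + HG.cmb (S.lev ω z.x) (S.lev ω z.y)
    lev_smul := by
      intro g ω z
      change 1 + HG.cmb (S.lev (g.g • ω) (g.g • z.x)) (S.lev (g.g • ω) (g.g • z.y)) = _
      rw [S.lev_smul, S.lev_smul]
    lev_fix := by
      intro ω z a ha
      rw [HG.mem_lsub] at ha
      obtain ⟨h1, h2, h3, h4⟩ := ha
      have hx := HG.le_cmb_left (S.lev ω z.x) (S.lev ω z.y)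
      have hy := HG.le_cmb_right (S.lev ω z.x) (S.lev ω z.y)
      have e1 : a.g • z.x = z.x := S.lev_fix ω z.x _ (S.Lanti ω (by omega) h1)
      have e2 : a.g • z.y = z.y := S.lev_fix ω z.y _ (S.Lanti ω (by omega) h1)
      have e3 : a.u z.x = 0 := h2 _ (by omega)
      have e4 : a.v z.y = 0 := h3 _ (by omega)
      have e5 : a.w z.x z.y = 0 := h4 _ _ (by omega)
      change ptMap a z = z
      ext
      · exact e1
      · exact e2
      · simp [ptMap, e2, e4]
      · simp [ptMap, e1, e2, e3, e5]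
    lev_le := by
      intro ω z
      have hx := S.lev_le ω z.x
      have hy := S.lev_le ω z.y
      unfold HG.cmb
      split_ifs <;> omega
    Lbot := by
      obtain ⟨m, hm⟩ := S.Lbot
      refine ⟨max m (S.t + 2), fun ω => HG.lsub_bot _ _ _ _ _ _ _ ?_ ?_ ?_ ?_⟩
      · exact eq_bot_iff.2 ((S.Lanti ω (le_max_left _ _)).trans (hm ω).le)
      · intro x; have := S.lev_le ω x; omega
      · intro x; have := S.lev_le ω x; omega
      · intro x y
        have hx := S.lev_le ω x
        have hy := S.lev_le ω y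
        unfold HG.cmb
        split_ifs <;> omega }

/-- Existence of a next stage with its relevant properties. -/
theorem exists_next {Ω : Type} (S : State Ω) : ∃ S' : State Ω, S'.t = S.t + 2 ∧
    (∀ x y : S.X, ∃ z : S'.X, ∀ ω, S'.lev ω z = 1 + HG.cmb (S.lev ω x) (S.lev ω y)) ∧
    (∀ z : S'.X, ∃ x y : S.X, ∀ ω, S'.lev ω z = 1 + HG.cmb (S.lev ω x) (S.lev ω y)) ∧
    (∀ ω j, S.L ω j = ⊥ → (∀ x, S.lev ω x < j) →
      (∀ x y, HG.cmb (S.lev ω x) (S.lev ω y) < j) → S'.L ω j = ⊥) := by
  obtain ⟨p, hp, hpp⟩ := Nat.exists_infinite_primes (Nat.card S.G + 1)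
  have : Fact p.Prime := ⟨hpp⟩
  refine ⟨next S p (by omega), rfl, ?_, ?_, ?_⟩
  · intro x y
    exact ⟨(⟨x, y, 0, 0⟩ : Pt S.X (ZMod p)), fun ω => rfl⟩
  · intro z
    exact ⟨Pt.x (F := ZMod p) z, Pt.y (F := ZMod p) z, fun ω => rfl⟩
  · intro ω j h1 h2 h3
    exact HG.lsub_bot (S.L ω) (S.lev ω) (S.lev ω) (S.Lanti ω) (S.lev_stab ω) (S.lev_stab ω) j
      h1 h2 h2 h3

/-- The combination rule for advantages. -/
def op (a b : ℤ) : ℤ := if a = b then a else min a b + 1

theorem le_op {a b k : ℤ} (ha : k ≤ a) (hb : k ≤ b) : k ≤ op a b := by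
  unfold op; split_ifs <;> omega

theorem lt_op_left {a b k : ℤ} (ha : k + 1 ≤ a) (hb : k ≤ b) : k + 1 ≤ op a b := by
  unfold op; split_ifs <;> omega

/-- The combinatorial game. -/
theorem game {Ω : Type} [Finite Ω] (T : Set (Ω → ℤ)) (h : ℕ)
    (hop : ∀ f ∈ T, ∀ g ∈ T, (fun ω => op (f ω) (g ω)) ∈ T)
    (htr : ∀ f ∈ T, ∀ a b : Ω, ∃ e : Ω ≃ Ω, e a = b ∧ (fun ω => f (e.symm ω)) ∈ T)
    (f0 : Ω → ℤ) (hf0 : f0 ∈ T) (c : Ω) (hc : (h : ℤ) + 1 ≤ f0 c) (hf1 : ∀ ω, 1 ≤ f0 ω)
    (k : ℕ) (hk : k ≤ h + 1) : ∃ f ∈ T, ∀ ω, (k : ℤ) ≤ f ω := by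
  classical
  have : Fintype Ω := Fintype.ofFinite _
  induction k with
  | zero => exact ⟨f0, hf0, fun ω => by have := hf1 ω; push_cast; omega⟩
  | succ k ih =>
    obtain ⟨y, hyT, hy⟩ := ih (by omega)
    -- first get a function with value at least `k + 1` at `c` and at least `k` elsewhere
    have step1 : ∀ i : ℕ, ∃ z ∈ T, (k : ℤ) + 1 ≤ z c ∧ ∀ ω, min ((i : ℤ) + 1) k ≤ z ω := by
      intro i
      induction i with
      | zero =>
        refine ⟨f0, hf0, by push_cast at hk; omega, fun ω => ?_⟩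
        have := hf1 ω
        push_cast; omega
      | succ i ih2 =>
        obtain ⟨z, hzT, hz1, hz2⟩ := ih2
        refine ⟨_, hop z hzT y hyT, lt_op_left hz1 (hy c), fun ω => ?_⟩
        have h1 := hz2 ω
        have h2 := hy ω
        unfold op
        push_cast
        split_ifs <;> omega
    obtain ⟨z0, hz0T, hz01, hz02⟩ := step1 k
    have hz03 : ∀ ω, (k : ℤ) ≤ z0 ω := fun ω => by have := hz02 ω; omega
    have step2 : ∀ n : ℕ, n + 1 ≤ Fintype.card Ω → ∃ z ∈ T, (∀ ω, (k : ℤ) ≤ z ω) ∧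
        n + 1 ≤ (Finset.univ.filter fun ω => (k : ℤ) + 1 ≤ z ω).card := by
      intro n
      induction n with
      | zero =>
        intro _
        refine ⟨z0, hz0T, hz03, ?_⟩
        rw [Nat.zero_add, Nat.one_le_iff_ne_zero, Finset.card_ne_zero]
        exact ⟨c, by simpa using hz01⟩
      | succ n ih2 =>
        intro hn
        obtain ⟨z, hzT, hz1, hz2⟩ := ih2 (by omega)
        by_cases hlt : n + 1 + 1 ≤ (Finset.univ.filter fun ω => (k : ℤ) + 1 ≤ z ω).card
        · exact ⟨z, hzT, hz1, hlt⟩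
        · have hne : (Finset.univ.filter fun ω => (k : ℤ) + 1 ≤ z ω) ≠ Finset.univ := by
            intro h
            rw [h, Finset.card_univ] at hlt
            omega
          obtain ⟨b, hb⟩ : ∃ b, b ∉ (Finset.univ.filter fun ω => (k : ℤ) + 1 ≤ z ω) := by
            by_contra hcon
            push Not at hcon
            exact hne (Finset.eq_univ_iff_forall.2 hcon)
          obtain ⟨a, ha⟩ : (Finset.univ.filter fun ω => (k : ℤ) + 1 ≤ z ω).Nonempty := by
            rw [← Finset.card_ne_zero]; omega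
          obtain ⟨e, he, heT⟩ := htr z hzT a b
          refine ⟨_, hop z hzT _ heT, fun ω => le_op (hz1 ω) (hz1 _), ?_⟩
          have hsub : insert b (Finset.univ.filter fun ω => (k : ℤ) + 1 ≤ z ω) ⊆
              (Finset.univ.filter fun ω => (k : ℤ) + 1 ≤ op (z ω) (z (e.symm ω))) := by
            intro ω hω
            rw [Finset.mem_filter]
            refine ⟨Finset.mem_univ _, ?_⟩
            rcases Finset.mem_insert.1 hω with rfl | hω
            · have h1 : (k : ℤ) + 1 ≤ z (e.symm ω) := by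
                rw [← he, Equiv.symm_apply_apply]
                exact (Finset.mem_filter.1 ha).2
              have h2 := hz1 ω
              unfold op
              split_ifs <;> omega
            · exact lt_op_left (Finset.mem_filter.1 hω).2 (hz1 _)
          have := Finset.card_le_card hsub
          rw [Finset.card_insert_of_notMem hb] at this
          omega
    have hpos : 0 < Fintype.card Ω := Fintype.card_pos_iff.2 ⟨c⟩
    obtain ⟨z, hzT, hz1, hz2⟩ := step2 (Fintype.card Ω - 1) (by omega)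
    refine ⟨z, hzT, fun ω => ?_⟩
    have h1 : (Finset.univ.filter fun ω => (k : ℤ) + 1 ≤ z ω) = Finset.univ := by
      apply Finset.eq_univ_of_card
      apply le_antisymm (Finset.card_le_univ _)
      omega
    have h2 := Finset.mem_filter.1 (h1 ▸ Finset.mem_univ ω)
    push_cast
    exact h2.2


/-- From a base stage one reaches a stage with a point whose levels are all small. -/
theorem reach {Ω : Type} [Finite Ω] (S0 : State Ω) (x0 : S0.X) (c : Ω)
    (hc : S0.lev c x0 = 0) (k : ℕ) (hk : k ≤ S0.t + 1) :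
    ∃ S : State Ω, ∃ x : S.X, ∀ ω, S.lev ω x + k ≤ S.t + 1 := by
  classical
  choose nx h1 h2 h3 h4 using fun S : State Ω => exists_next S
  let sq : ℕ → State Ω := fun n => nx^[n] S0
  have hsq : ∀ n, sq (n + 1) = nx (sq n) := fun n => Function.iterate_succ_apply' _ _ _
  let typ : (S : State Ω) → S.X → Ω → ℤ := fun S x ω => (S.t : ℤ) + 1 - S.lev ω x
  let T : Set (Ω → ℤ) := {f | ∃ n, ∃ x : (sq n).X, typ (sq n) x = f}
  have hopx : ∀ (S : State Ω) (x y : S.X), ∃ z : (nx S).X,
      typ (nx S) z = fun ω => op (typ S x ω) (typ S y ω) := by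
    intro S x y
    obtain ⟨z, hz⟩ := h2 S x y
    refine ⟨z, ?_⟩
    funext ω
    simp only [typ]
    rw [hz ω, h1 S]
    unfold op HG.cmb
    push_cast
    split_ifs <;> omega
  have hmono : ∀ n (x : (sq n).X), ∃ y : (sq (n + 1)).X, typ (sq (n + 1)) y = typ (sq n) x := by
    intro n x
    rw [hsq]
    obtain ⟨z, hz⟩ := hopx (sq n) x x
    refine ⟨z, ?_⟩
    rw [hz]
    funext ω
    unfold op
    rw [if_pos rfl]
  have hmono' : ∀ d n (x : (sq n).X), ∃ y : (sq (n + d)).X,
      typ (sq (n + d)) y = typ (sq n) x := by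
    intro d n x
    induction d with
    | zero => exact ⟨x, rfl⟩
    | succ d ih =>
      obtain ⟨y, hy⟩ := ih
      obtain ⟨z, hz⟩ := hmono (n + d) y
      exact ⟨z, hz.trans hy⟩
  have hT : ∃ f ∈ T, ∀ ω, (k : ℤ) ≤ f ω := by
    refine game T S0.t ?_ ?_ (typ S0 x0) ⟨0, x0, rfl⟩ c ?_ ?_ k hk
    · rintro f ⟨n, x, rfl⟩ g ⟨m, y, rfl⟩
      obtain ⟨x', hx'⟩ := hmono' m n x
      obtain ⟨y', hy'⟩ := hmono' n m y
      have hnm : m + n = n + m := Nat.add_comm m n
      obtain ⟨y'', hy''⟩ : ∃ y'' : (sq (n + m)).X, typ (sq (n + m)) y'' = typ (sq m) y := by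
        rw [← hnm]; exact ⟨y', hy'⟩
      obtain ⟨z, hz⟩ := hopx (sq (n + m)) x' y''
      refine ⟨n + m + 1, ?_⟩
      rw [hsq]
      refine ⟨z, ?_⟩
      rw [hz, hx', hy'']
    · rintro f ⟨n, x, rfl⟩ a b
      obtain ⟨g, hg⟩ := (sq n).trans a b
      refine ⟨MulAction.toPerm g, hg, n, g • x, ?_⟩
      funext ω
      simp only [typ]
      have : (sq n).lev ω (g • x) = (sq n).lev ((MulAction.toPerm g).symm ω) x := by
        conv_lhs => rw [← smul_inv_smul g ω]
        exact (sq n).lev_smul g _ x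
      rw [this]
    · simp only [typ]; rw [hc]; push_cast; omega
    · intro ω
      simp only [typ]
      have := S0.lev_le ω x0
      omega
  obtain ⟨f, ⟨n, x, rfl⟩, hf⟩ := hT
  refine ⟨sq n, x, fun ω => ?_⟩
  have := hf ω
  simp only [typ] at this
  omega

/-- Restriction of a stage to an invariant set of points. -/
def State.restrict {Ω : Type} (S : State Ω) (P : S.X → Prop)
    (hP : ∀ (g : S.G) x, P x → P (g • x)) : State Ω :=
  letI : MulAction S.G {x // P x} :=
    { smul := fun g x => ⟨g • x.1, hP g x.1 x.2⟩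
      one_smul := fun x => Subtype.ext (one_smul _ _)
      mul_smul := fun g h x => Subtype.ext (mul_smul _ _ _) }
  { G := S.G
    X := {x // P x}
    solv := S.solv
    trans := S.trans
    mx := S.mx
    t := S.t
    moves := by
      rintro ⟨x, hx⟩
      obtain ⟨g, hg, hgx⟩ := S.moves x
      exact ⟨g, hg, fun h => hgx (congrArg Subtype.val h)⟩
    L := S.L
    L0 := S.L0
    Lanti := S.Lanti
    Lcomm := S.Lcomm
    lev := fun ω x => S.lev ω x.1
    lev_smul := fun g ω x => S.lev_smul g ω x.1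
    lev_fix := fun ω x g hg => Subtype.ext (S.lev_fix ω x.1 g hg)
    lev_le := fun ω x => S.lev_le ω x.1
    Lbot := S.Lbot }

/-- Iterating the step from a stage all of whose levels are small. -/
theorem iterate_small {Ω : Type} (S : State Ω) (x0 : S.X) (k : ℕ)
    (hlev : ∀ ω x, S.lev ω x + k ≤ S.t + 1) (m : ℕ) (hm : ∀ ω, S.L ω m = ⊥) (r : ℕ) :
    ∃ S' : State Ω, S'.t = S.t + 2 * r ∧ Nonempty S'.X ∧
      (∀ ω x, S'.lev ω x + k ≤ S'.t + 1) ∧
      (∀ ω j, m ≤ j → S.t + 2 * r + 1 - k ≤ j → S'.L ω j = ⊥) := by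
  induction r with
  | zero =>
    refine ⟨S, rfl, ⟨x0⟩, hlev, fun ω j hj _ => ?_⟩
    exact eq_bot_iff.2 ((S.Lanti ω hj).trans (hm ω).le)
  | succ r ih =>
    obtain ⟨S', ht, ⟨x⟩, h1, h2⟩ := ih
    obtain ⟨S'', h3, h4, h5, h6⟩ := exists_next S'
    refine ⟨S'', by rw [h3, ht]; ring, ?_, ?_, ?_⟩
    · obtain ⟨z, -⟩ := h4 x x
      exact ⟨z⟩
    · intro ω z
      obtain ⟨a, b, hab⟩ := h5 z
      rw [hab ω, h3]
      have ha := h1 ω a
      have hb := h1 ω b
      unfold HG.cmb
      split_ifs <;> omega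
    · intro ω j hj hj2
      refine h6 ω j (h2 ω j hj (by omega)) ?_ ?_
      · intro y
        have := h1 ω y
        omega
      · intro y z
        have ha := h1 ω y
        have hb := h1 ω z
        unfold HG.cmb
        split_ifs <;> omega

theorem derived_le_level {Ω : Type} (S : State Ω) (ω : Ω) (j : ℕ) :
    (derivedSeries (MulAction.stabilizer S.G ω) j).map
      (MulAction.stabilizer S.G ω).subtype ≤ S.L ω j := by
  induction j with
  | zero =>
    rw [derivedSeries_zero, S.L0]
    intro x hx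
    obtain ⟨y, -, rfl⟩ := Subgroup.mem_map.1 hx
    exact y.2
  | succ j ih =>
    rw [derivedSeries_succ, Subgroup.map_commutator]
    exact (Subgroup.commutator_mono ih ih).trans (S.Lcomm ω j)

/-- Main consequence: large difference of derived lengths. -/
theorem conclusion {Ω : Type} [Finite Ω] (S0 : State Ω) (x0 : S0.X) (c : Ω)
    (hc : S0.lev c x0 = 0) (k : ℕ) (hk : k ≤ S0.t + 1) :
    ∃ (G : Type) (_ : Group G) (_ : Finite G) (M : Subgroup G) (n : ℕ), Group.IsSolvable G ∧
      IsCoatom M ∧ derivedSeries M n = ⊥ ∧ derivedSeries G (n + k - 1) ≠ ⊥ := by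
  obtain ⟨S, x, hx⟩ := reach S0 x0 c hc k hk
  let S1 : State Ω := S.restrict (fun y => ∀ ω, S.lev ω y + k ≤ S.t + 1) (by
    intro g y hy ω
    have h := hy (g⁻¹ • ω)
    have e : S.lev ω (g • y) = S.lev (g⁻¹ • ω) y := by
      conv_lhs => rw [← smul_inv_smul g ω]
      exact S.lev_smul g _ y
    rw [e]; exact h)
  obtain ⟨m, hm⟩ := S1.Lbot
  obtain ⟨S2, ht, ⟨z⟩, h1, h2⟩ := iterate_small S1 ⟨x, hx⟩ k (fun ω y => y.2 ω) m hm (m + k)
  have hkt : k ≤ S2.t + 1 := by have := h1 c z; omega
  refine ⟨S2.G, inferInstance, inferInstance, MulAction.stabilizer S2.G c, S2.t + 1 - k,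
    S2.solv, S2.mx c, ?_, ?_⟩
  · have h3 := derived_le_level S2 c (S2.t + 1 - k)
    have h4 : S2.L c (S2.t + 1 - k) = ⊥ := h2 c _ (by omega) (by omega)
    rw [h4, le_bot_iff, Subgroup.map_eq_bot_iff_of_injective _ (Subgroup.subtype_injective _)] at h3
    exact h3
  · intro hbot
    have h5 : S2.t + 1 - k + k - 1 = S2.t := by omega
    rw [h5] at hbot
    obtain ⟨g, hg, hgz⟩ := S2.moves z
    rw [hbot, Subgroup.mem_bot] at hg
    rw [hg, one_smul] at hgz
    exact hgz rfl


/-- The base stage obtained from a group of derived length `h + 1` and a maximal subgroup not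
containing the last nontrivial derived subgroup. -/
theorem base_state {Γ : Type} [Group Γ] [Finite Γ] (hs : Group.IsSolvable Γ) (h : ℕ)
    (h1 : derivedSeries Γ (h + 1) = ⊥) (H : Subgroup Γ) (hH : IsCoatom H)
    (h2 : ¬ derivedSeries Γ h ≤ H) :
    ∃ S : State (Γ ⧸ H), S.t = h ∧ ∃ (x : S.X) (c : Γ ⧸ H), S.lev c x = 0 := by
  classical
  -- transitivity of the last derived subgroup
  have hsup : derivedSeries Γ h ⊔ H = ⊤ := by
    refine hH.2 _ (lt_of_le_of_ne le_sup_right ?_)
    intro hcon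
    apply h2
    rw [hcon]
    exact le_sup_left
  have htr1 : ∀ g : Γ, ∃ a ∈ derivedSeries Γ h, a • ((1 : Γ) : Γ ⧸ H) = (g : Γ ⧸ H) := by
    intro g
    have hg : g ∈ ((derivedSeries Γ h ⊔ H : Subgroup Γ) : Set Γ) := by
      rw [hsup]; exact Subgroup.mem_top g
    rw [Subgroup.normal_mul] at hg
    obtain ⟨a, ha, b, hb, rfl⟩ := hg
    refine ⟨a, ha, ?_⟩
    rw [MulAction.Quotient.smul_coe, smul_eq_mul, mul_one]
    rw [QuotientGroup.eq]
    simpa using hb
  have htr : ∀ a b : Γ ⧸ H, ∃ g ∈ derivedSeries Γ h, g • a = b := by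
    intro a b
    obtain ⟨a', rfl⟩ := QuotientGroup.mk_surjective a
    obtain ⟨b', rfl⟩ := QuotientGroup.mk_surjective b
    obtain ⟨x, hx, hxa⟩ := htr1 a'
    obtain ⟨y, hy, hyb⟩ := htr1 b'
    refine ⟨y * x⁻¹, Subgroup.mul_mem _ hy (Subgroup.inv_mem _ hx), ?_⟩
    rw [← hxa, ← hyb, mul_smul, inv_smul_smul]
  have hcomm : ∀ a ∈ derivedSeries Γ h, ∀ b ∈ derivedSeries Γ h, a * b = b * a := by
    intro a ha b hb
    have : ⁅a, b⁆ ∈ derivedSeries Γ (h + 1) := by
      rw [derivedSeries_succ]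
      exact Subgroup.commutator_mem_commutator ha hb
    rw [h1, Subgroup.mem_bot] at this
    exact commutatorElement_eq_one_iff_mul_comm.1 this
  have hmap : ∀ (ω : Γ ⧸ H) (j : ℕ), (derivedSeries (MulAction.stabilizer Γ ω) j).map
      (MulAction.stabilizer Γ ω).subtype ≤ derivedSeries Γ j := fun ω j =>
    map_derivedSeries_le_derivedSeries _ j
  have hstab : ∀ (ω : Γ ⧸ H) (j : ℕ), (derivedSeries (MulAction.stabilizer Γ ω) j).map
      (MulAction.stabilizer Γ ω).subtype ≤ MulAction.stabilizer Γ ω := by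
    intro ω j x hx
    obtain ⟨y, -, rfl⟩ := Subgroup.mem_map.1 hx
    exact y.2
  refine ⟨{ G := Γ
            X := Γ ⧸ H
            solv := hs
            trans := fun a b => ?_
            mx := ?_
            t := h
            moves := ?_
            L := fun ω j => (derivedSeries (MulAction.stabilizer Γ ω) j).map
              (MulAction.stabilizer Γ ω).subtype
            L0 := ?_
            Lanti := ?_
            Lcomm := ?_
            lev := fun ω c => if c = ω then 0 else h
            lev_smul := ?_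
            lev_fix := ?_
            lev_le := ?_
            Lbot := ?_ }, rfl, ((1 : Γ) : Γ ⧸ H), ((1 : Γ) : Γ ⧸ H), if_pos rfl⟩
  · obtain ⟨g, -, hg⟩ := htr a b
    exact ⟨g, hg⟩
  · intro ω
    obtain ⟨g, -, hg⟩ := htr ω ((1 : Γ) : Γ ⧸ H)
    have e : MulAction.stabilizer Γ ω = H.comap (MulAut.conj g).toMonoidHom := by
      ext x
      rw [Subgroup.mem_comap, MulAction.mem_stabilizer_iff]
      have e1 : ω = g⁻¹ • ((1 : Γ) : Γ ⧸ H) := by rw [← hg, inv_smul_smul]
      have e2 : MulAction.stabilizer Γ ((1 : Γ) : Γ ⧸ H) = H := MulAction.stabilizer_quotient H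
      have e3 : ((MulAut.conj g).toMonoidHom x) ∈ H ↔
          (g * x * g⁻¹) • ((1 : Γ) : Γ ⧸ H) = ((1 : Γ) : Γ ⧸ H) := by
        rw [← MulAction.mem_stabilizer_iff, e2]
        rfl
      rw [e3, e1]
      constructor
      · intro h3
        rw [mul_smul, mul_smul, h3, smul_inv_smul]
      · intro h3
        rw [mul_smul, mul_smul] at h3
        rw [eq_inv_smul_iff]
        exact h3
    rw [e]
    exact isCoatom_comap _ (MulAut.conj g).surjective hH
  · intro c
    by_contra hcon
    push Not at hcon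
    apply hH.1
    rw [eq_top_iff]
    intro g _
    obtain ⟨a, ha, hac⟩ := htr c ((1 : Γ) : Γ ⧸ H)
    obtain ⟨b, hb, hbc⟩ := htr c (g : Γ ⧸ H)
    have e : ((1 : Γ) : Γ ⧸ H) = (g : Γ ⧸ H) := by
      rw [← hac, ← hbc, hcon a ha, hcon b hb]
    have := QuotientGroup.eq.1 e
    simpa using this
  · intro ω
    ext x
    constructor
    · intro hx; exact hstab ω 0 hx
    · intro hx
      exact Subgroup.mem_map.2 ⟨⟨x, hx⟩, Subgroup.mem_top _, rfl⟩
  · intro ω i j hij
    exact Subgroup.map_mono (derivedSeries_antitone _ hij)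
  · intro ω j
    rw [← Subgroup.map_commutator, ← derivedSeries_succ]
  · intro g ω c
    by_cases hc : c = ω
    · rw [if_pos hc, if_pos (by rw [hc])]
    · rw [if_neg hc, if_neg (fun h3 => hc (smul_left_cancel g h3))]
  · intro ω c g hg
    by_cases hc : c = ω
    · subst hc
      exact hstab _ _ hg
    · rw [if_neg hc] at hg
      have hg1 : g ∈ derivedSeries Γ h := hmap ω h hg
      have hg2 : g • ω = ω := hstab _ _ hg
      obtain ⟨b, hb, hbc⟩ := htr ω c
      rw [← hbc, ← mul_smul, hcomm g hg1 b hb, mul_smul, hg2]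
  · intro ω c
    by_cases hc : c = ω
    · rw [if_pos hc]; exact Nat.zero_le _
    · rw [if_neg hc]
  · refine ⟨h + 1, fun ω => ?_⟩
    rw [eq_bot_iff, ← h1]
    exact hmap ω (h + 1)


/-- The empty set as a `G`-set. -/
instance emptyAct (G : Type) [Group G] : MulAction G Empty where
  smul _ e := e
  one_smul e := e.elim
  mul_smul _ _ e := e.elim

theorem proj_mem {G X Y F : Type} [Group G] [MulAction G X] [MulAction G Y] [CommRing F] (n : ℕ)
    (a : HG G X Y F) (ha : a ∈ derivedSeries (HG G X Y F) n) : a.g ∈ derivedSeries G n :=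
  map_derivedSeries_le_derivedSeries HG.proj n (Subgroup.mem_map_of_mem _ ha)

theorem derived_HG_empty {G F : Type} [Group G] [CommRing F] (n : ℕ)
    (h : derivedSeries G n = ⊥) : derivedSeries (HG G G Empty F) (n + 1) = ⊥ := by
  rw [derivedSeries_succ, Subgroup.commutator_eq_bot_iff_le_centralizer]
  intro a ha
  rw [Subgroup.mem_centralizer_iff]
  intro b hb
  have h1 := proj_mem n a ha
  have h2 := proj_mem n b hb
  rw [h, Subgroup.mem_bot] at h1 h2
  ext x y
  · simp [h1, h2, add_comm]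
  · exact Empty.elim ‹_›
  · exact Empty.elim ‹_›
  · simp [h1, h2]

/-- For a moved point there is an element of the next derived subgroup of the extension. -/
theorem exists_mu {G F : Type} [Group G] [Finite G] [CommRing F] (n : ℕ)
    (h : derivedSeries G n ≠ ⊥) (c : ℕ)
    (hc : (c : F) * (Nat.card (derivedSeries G n) : F) = 1) :
    ∃ f : G → F, f 1 = 1 ∧ (∀ y, ∑ᶠ s : derivedSeries G n, f ((s : G) • y) = 0) ∧
      (HG.mu f : HG G G Empty F) ∈ derivedSeries (HG G G Empty F) (n + 1) := by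
  obtain ⟨s, hs⟩ := (Subgroup.ne_bot_iff_exists_ne_one).1 h
  obtain ⟨f, hf1, hf2⟩ := HG.exists_fun (F := F) (derivedSeries G n) (1 : G)
    ⟨s.1, s.2, by
      intro h3
      apply hs
      apply Subtype.ext
      simpa using h3⟩
  exact ⟨f, hf1, hf2, HG.mu_mem n c hc f hf2 (n + 1) le_rfl⟩

theorem exists_big (n : ℕ) : ∃ (G : Type) (_ : Group G) (_ : Finite G),
    Group.IsSolvable G ∧ derivedSeries G n ≠ ⊥ := by
  induction n with
  | zero =>
    refine ⟨Multiplicative (ZMod 2), inferInstance, inferInstance, inferInstance, ?_⟩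
    rw [derivedSeries_zero]
    exact top_ne_bot
  | succ n ih =>
    obtain ⟨G, _, _, hs, hn⟩ := ih
    obtain ⟨p, hp, hpp⟩ := Nat.exists_infinite_primes (Nat.card G + 1)
    have : Fact p.Prime := ⟨hpp⟩
    obtain ⟨c, hc⟩ := exists_inv_mod p (Nat.card (derivedSeries G n)) Nat.card_pos
      (lt_of_le_of_lt (Subgroup.card_le_card_group _) (by omega))
    obtain ⟨f, hf1, -, hf3⟩ := exists_mu n hn c hc
    refine ⟨HG G G Empty (ZMod p), inferInstance, inferInstance, HG.solvable_of hs, ?_⟩
    intro hbot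
    rw [hbot, Subgroup.mem_bot] at hf3
    have := congrArg (fun a : HG G G Empty (ZMod p) => a.u 1) hf3
    change f 1 = 0 at this
    rw [hf1] at this
    exact one_ne_zero this

theorem exists_base (n : ℕ) : ∃ (Γ : Type) (_ : Group Γ) (_ : Finite Γ) (H : Subgroup Γ) (h : ℕ),
    n ≤ h ∧ Group.IsSolvable Γ ∧ derivedSeries Γ (h + 1) = ⊥ ∧ IsCoatom H ∧
      ¬ derivedSeries Γ h ≤ H := by
  classical
  obtain ⟨G, _, _, hs, hn⟩ := exists_big n
  -- the last nontrivial derived subgroup
  obtain ⟨r, hr1, hr2, hr3⟩ : ∃ r, n ≤ r ∧ derivedSeries G r ≠ ⊥ ∧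
      derivedSeries G (r + 1) = ⊥ := by
    have hex := hs.solvable
    refine ⟨Nat.find hex - 1, ?_, ?_, ?_⟩
    · by_contra hcon
      apply hn
      rw [eq_bot_iff]
      refine (derivedSeries_antitone G (by omega : Nat.find hex ≤ n)).trans ?_
      exact (Nat.find_spec hex).le
    · have hpos : Nat.find hex ≠ 0 := by
        intro h0
        apply hn
        rw [eq_bot_iff]
        refine (derivedSeries_antitone G (by omega : Nat.find hex ≤ n)).trans ?_
        exact (Nat.find_spec hex).le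
      exact Nat.find_min hex (by omega)
    · have hpos : Nat.find hex ≠ 0 := by
        intro h0
        apply hn
        rw [eq_bot_iff]
        refine (derivedSeries_antitone G (by omega : Nat.find hex ≤ n)).trans ?_
        exact (Nat.find_spec hex).le
      have : Nat.find hex - 1 + 1 = Nat.find hex := by omega
      rw [this]
      exact Nat.find_spec hex
  obtain ⟨p, hp, hpp⟩ := Nat.exists_infinite_primes (Nat.card G + 1)
  have : Fact p.Prime := ⟨hpp⟩
  obtain ⟨c, hc⟩ := exists_inv_mod p (Nat.card (derivedSeries G r)) Nat.card_pos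
    (lt_of_le_of_lt (Subgroup.card_le_card_group _) (by omega))
  obtain ⟨f, hf1, hf2, hf3⟩ := exists_mu r hr2 c hc
  have : Fintype (derivedSeries G r) := Fintype.ofFinite _
  let P : Subgroup (HG G G Empty (ZMod p)) :=
    { carrier := {a | ∀ s ∈ derivedSeries G r, ∀ x : G, a.u (s • x) = a.u x}
      mul_mem' := by
        intro a b ha hb s hs x
        have hs' : a.g⁻¹ * s * a.g ∈ derivedSeries G r := by
          have := (derivedSeries_normal G r).conj_mem s hs a.g⁻¹
          simpa using this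
        have e : a.g⁻¹ • s • x = (a.g⁻¹ * s * a.g) • (a.g⁻¹ • x) := by
          simp [mul_assoc]
        rw [HG.mul_u, HG.mul_u, ha s hs x, e, hb _ hs' _]
      one_mem' := by intro s _ x; rfl
      inv_mem' := by
        intro a ha s hs x
        have hs' : a.g * s * a.g⁻¹ ∈ derivedSeries G r :=
          (derivedSeries_normal G r).conj_mem s hs a.g
        have e : a.g • s • x = (a.g * s * a.g⁻¹) • (a.g • x) := by
          simp [mul_assoc]
        rw [HG.inv_u, HG.inv_u, e, ha _ hs' _] }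
  have hPtop : P ≠ ⊤ := by
    intro h
    have h1 : (HG.mu f : HG G G Empty (ZMod p)) ∈ P := by rw [h]; exact Subgroup.mem_top _
    have h2 := hf2 1
    have h3 : ∀ s : derivedSeries G r, f ((s : G) • (1 : G)) = 1 := by
      intro s
      rw [← hf1]
      exact h1 s.1 s.2 1
    rw [finsum_eq_sum_of_fintype, Finset.sum_congr rfl (fun s _ => h3 s), Finset.sum_const,
      Finset.card_univ, nsmul_eq_mul, mul_one, ← Nat.card_eq_fintype_card] at h2
    rw [h2, mul_zero] at hc
    exact zero_ne_one hc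
  obtain ⟨H, hH, hPH⟩ := (eq_top_or_exists_le_coatom P).resolve_left hPtop
  refine ⟨HG G G Empty (ZMod p), inferInstance, inferInstance, H, r + 1, by omega,
    HG.solvable_of hs, derived_HG_empty (r + 1) hr3, hH, ?_⟩
  intro hle
  apply hH.1
  rw [eq_top_iff]
  intro a _
  -- decompose the `u`-part
  let av : G → ZMod p := fun x => (c : ZMod p) * ∑ s : derivedSeries G r, a.u ((s : G) • x)
  have hav : ∀ s ∈ derivedSeries G r, ∀ x, av (s • x) = av x := by
    intro s hs x
    simp only [av]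
    congr 1
    refine Fintype.sum_equiv (Equiv.mulRight (⟨s, hs⟩ : derivedSeries G r)) _ _ (fun y => ?_)
    simp [mul_assoc]
  have h1 : (HG.mu (fun x => a.u x - av x) : HG G G Empty (ZMod p)) ∈
      derivedSeries (HG G G Empty (ZMod p)) (r + 1) := by
    refine HG.mu_mem r c hc _ ?_ (r + 1) le_rfl
    intro z
    rw [finsum_eq_sum_of_fintype, Finset.sum_sub_distrib,
      Finset.sum_congr rfl (fun (s : derivedSeries G r) _ => hav s.1 s.2 z), Finset.sum_const,
      Finset.card_univ, nsmul_eq_mul, ← Nat.card_eq_fintype_card]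
    simp only [av]
    rw [← mul_assoc, mul_comm _ (c : ZMod p), hc, one_mul, sub_self]
  have h2 : ((HG.mu (fun x => a.u x - av x) : HG G G Empty (ZMod p)))⁻¹ * a ∈ P := by
    intro s hs x
    have e : ∀ z : G, (((HG.mu (fun x => a.u x - av x) : HG G G Empty (ZMod p)))⁻¹ * a).u z =
        av z := by
      intro z
      rw [HG.mul_u, HG.inv_u]
      change -(a.u ((1 : G) • z) - av ((1 : G) • z)) + a.u ((1 : G)⁻¹⁻¹ • z) = av z
      rw [inv_inv, one_smul]
      ring
    rw [e, e, hav s hs x]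
  have h3 := H.mul_mem (hle h1) (hPH h2)
  rwa [mul_inv_cancel_left] at h3

/-- Unboundedness: for every `k` there is a finite solvable group with a maximal subgroup whose
derived length is smaller by at least `k`. -/
theorem unbounded (k : ℕ) : ∃ (G : Type) (_ : Group G) (_ : Finite G) (M : Subgroup G) (n : ℕ),
    Group.IsSolvable G ∧ IsCoatom M ∧ derivedSeries M n = ⊥ ∧
      derivedSeries G (n + k) ≠ ⊥ := by
  obtain ⟨Γ, _, _, H, h, hn, hs, h1, hH, h2⟩ := exists_base k
  obtain ⟨S, hS, x, c, hc⟩ := base_state hs h h1 H hH h2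
  have : Finite (Γ ⧸ H) := inferInstance
  obtain ⟨G, i1, i2, M, n, e1, e2, e3, e4⟩ := conclusion S x c hc (k + 1) (by omega)
  exact ⟨G, i1, i2, M, n, e1, e2, e3, e4⟩


end Aux

/-- The derived length of a group: the least `n` with `n`-th derived subgroup trivial
(for solvable groups such an `n` exists). -/
noncomputable def derivedLength (X : Type) [Group X] : ℕ :=
  sInf {n : ℕ | derivedSeries X n = ⊥}

/-- The supremum of `d(G) - d(M)` over all finite solvable groups `G` and all maximal subgroups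
`M` of `G`, as an extended natural number. -/
noncomputable def kStar : ℕ∞ :=
  sSup {δ : ℕ∞ | ∃ (G : Type) (_ : Group G) (M : Subgroup G),
    Finite G ∧ Group.IsSolvable G ∧ IsCoatom M ∧
      δ = ((derivedLength G - derivedLength M : ℕ) : ℕ∞)}

/-- Sanity check: for a solvable group the derived length is attained. -/
theorem derivedLength_spec (X : Type) [Group X] (h : Group.IsSolvable X) :
    derivedSeries X (derivedLength X) = ⊥ := by
  obtain ⟨N, hN⟩ := h.solvable
  exact Nat.sInf_mem (s := {m : ℕ | derivedSeries X m = ⊥}) ⟨N, hN⟩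

/-- Sanity check: the derived length of a subgroup of a solvable group is at most that of the
group, so that the subtraction in `kStar` is the true difference. -/
theorem derivedLength_subgroup_le (X : Type) [Group X] (h : Group.IsSolvable X) (M : Subgroup X) :
    derivedLength M ≤ derivedLength X := by
  apply Nat.sInf_le
  change derivedSeries M (derivedLength X) = ⊥
  have h1 := map_derivedSeries_le_derivedSeries M.subtype (derivedLength X)
  rw [derivedLength_spec X h, le_bot_iff, Subgroup.map_eq_bot_iff_of_injective _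
    M.subtype_injective] at h1
  exact h1

/-- `k* = ∞`: the difference `d(G) - d(M)` is unbounded. -/
theorem result : kStar = ⊤ := by
  rw [kStar, sSup_eq_top]
  intro b hb
  obtain ⟨k, rfl⟩ := ENat.ne_top_iff_exists.mp hb.ne
  obtain ⟨G, i1, i2, M, n, hs, hM, h1, h2⟩ := unbounded (k + 1)
  refine ⟨_, ⟨G, i1, M, i2, hs, hM, rfl⟩, ?_⟩
  have e1 : derivedLength M ≤ n := Nat.sInf_le h1
  have e2 : n + (k + 1) < derivedLength G := by
    by_contra hcon
    push Not at hcon
    exact h2 (eq_bot_iff.mpr ((derivedSeries_antitone G hcon).trans (derivedLength_spec G hs).le))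
  exact_mod_cast (by omega : k < derivedLength G - derivedLength M)

end Pool.Agent.Results.MP_0568c2_al.KStarInfinite
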